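import Mathlib

namespace Pool.Agent.Results.MP_bfacb1_co.House

open SimpleGraph

/-- Distinct edges sharing a vertex get different colours. -/
def Proper {V C : Type} (G : SimpleGraph V) (c : G.edgeSet → C) : Prop :=
  ∀ e f : G.edgeSet, e ≠ f → (∃ v, v ∈ e.1 ∧ v ∈ f.1) → c e ≠ c f

/-- Some (not necessarily induced) copy of `H` in `G` has pairwise distinct edge colours. -/
def HasRainbow {V W C : Type} (G : SimpleGraph V) (H : SimpleGraph W) (c : G.edgeSet → C) :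
    Prop :=
  ∃ φ : H.Copy G, Function.Injective (fun e : H.edgeSet => c (φ.toHom.mapEdgeSet e))

/-- The set `K(G,H)`. -/
def K {V W : Type} (G : SimpleGraph V) (H : SimpleGraph W) : Set ℕ :=
  {k | 1 ≤ k ∧ ∃ c : G.edgeSet → Fin k, Function.Surjective c ∧ Proper G c ∧ ¬ HasRainbow G H c}

def IsInterval (S : Set ℕ) : Prop := ∀ a b c, a < b → b < c → a ∈ S → c ∈ S → b ∈ S

/-- The house: 4-cycle 0-1-2-3-0 with roof vertex 4 joined to 0 and 3. -/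
def house : SimpleGraph (Fin 5) :=
  SimpleGraph.fromRel fun i j => (i, j) ∈ ([(0,1),(1,2),(2,3),(3,0),(0,4),(3,4)] : List (Fin 5 × Fin 5))

instance : DecidableRel house.Adj := fun i j => by unfold house; rw [fromRel_adj]; infer_instance

abbrev T : SimpleGraph (Fin 5) := ⊤

def L : List house.edgeSet :=
  [⟨s(0,1), by decide⟩, ⟨s(1,2), by decide⟩, ⟨s(2,3), by decide⟩, ⟨s(3,0), by decide⟩,
   ⟨s(0,4), by decide⟩, ⟨s(3,4), by decide⟩]

theorem L_all (e : house.edgeSet) : e ∈ L := by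
  obtain ⟨e, he⟩ := e
  induction e using Sym2.ind with
  | h i j =>
    have h : house.Adj i j := he
    have : ∀ i j, house.Adj i j → s(i, j) ∈ L.map Subtype.val := by decide
    obtain ⟨x, hx, hx2⟩ := List.mem_map.1 (this i j h)
    have : x = ⟨s(i, j), he⟩ := Subtype.ext hx2
    exact this ▸ hx

theorem L_nodup : L.Nodup := by decide

def dd {C : Type} (c : T.edgeSet → C) (i j : Fin 5) : C :=
  if h : i = j then c ⟨s(0,1), by decide⟩ else c ⟨s(i,j), h⟩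

def six {C : Type} (d : Fin 5 → Fin 5 → C) (p q r s t : Fin 5) : List C :=
  [d p q, d q r, d r s, d s p, d p t, d s t]

theorem map_eq {C : Type} (c : T.edgeSet → C) (φ : house.Copy T) :
    L.map (fun e => c (φ.toHom.mapEdgeSet e)) = six (dd c) (φ 0) (φ 1) (φ 2) (φ 3) (φ 4) := by
  have h : ∀ i j : Fin 5, i ≠ j → ¬ φ i = φ j := fun i j hij h => hij (φ.injective h)
  simp only [L, six, dd, List.map, dif_neg (h 0 1 (by decide)), dif_neg (h 1 2 (by decide)),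
    dif_neg (h 2 3 (by decide)), dif_neg (h 3 0 (by decide)), dif_neg (h 0 4 (by decide)),
    dif_neg (h 3 4 (by decide))]
  rfl

theorem rb_iff {C : Type} (c : T.edgeSet → C) : HasRainbow T house c ↔
    ∃ p q r s t : Fin 5, [p, q, r, s, t].Nodup ∧ (six (dd c) p q r s t).Nodup := by
  constructor
  · rintro ⟨φ, h⟩
    refine ⟨φ 0, φ 1, φ 2, φ 3, φ 4, ?_, ?_⟩
    · exact List.Nodup.map (l := [0, 1, 2, 3, 4]) φ.injective (by decide)
    · rw [← map_eq]; exact L_nodup.map h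
  · rintro ⟨p, q, r, s, t, h1, h2⟩
    have hinj : Function.Injective (![p, q, r, s, t] : Fin 5 → Fin 5) := by
      rw [← List.nodup_ofFn]; simpa using h1
    let φ : house.Copy T := ⟨⟨![p, q, r, s, t], fun h => hinj.ne h.ne⟩, hinj⟩
    refine ⟨φ, fun e f h => ?_⟩
    have h3 := map_eq c φ
    have h4 : (L.map (fun e => c (φ.toHom.mapEdgeSet e))).Nodup := by rw [h3]; exact h2
    exact List.inj_on_of_nodup_map h4 (L_all e) (L_all f) h

def mk {C : Type} (d : Fin 5 → Fin 5 → C) (h : ∀ i j, d i j = d j i) : T.edgeSet → C :=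
  fun e => Sym2.lift ⟨d, h⟩ e.1

theorem mk_mem {k : ℕ} (hk : 1 ≤ k) (d : Fin 5 → Fin 5 → Fin k) (h : ∀ i j, d i j = d j i)
    (h1 : ∀ t, ∃ i j, i ≠ j ∧ d i j = t)
    (h2 : ∀ i j l, i ≠ j → i ≠ l → j ≠ l → d i j ≠ d i l)
    (h3 : ∀ p q r s t : Fin 5, [p, q, r, s, t].Nodup → ¬ (six d p q r s t).Nodup) :
    k ∈ K T house := by
  refine ⟨hk, mk d h, fun t => ?_, ?_, ?_⟩
  · obtain ⟨i, j, hij, ht⟩ := h1 t
    exact ⟨⟨s(i, j), hij⟩, ht⟩
  · rintro ⟨e, he⟩ ⟨f, hf⟩ hne ⟨v, hv1, hv2⟩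
    obtain ⟨j, rfl⟩ := Sym2.mem_iff_exists.1 hv1
    obtain ⟨l, rfl⟩ := Sym2.mem_iff_exists.1 hv2
    exact h2 v j l he hf (fun hjl => hne (by subst hjl; rfl))
  · rw [rb_iff]
    rintro ⟨p, q, r, s, t, h4, h5⟩
    apply h3 p q r s t h4
    simp only [List.nodup_cons, List.mem_cons, not_or] at h4
    have e1 : ¬ s = p := fun h => h4.1.2.2.1 h.symm
    simp only [six, dd, dif_neg h4.1.1, dif_neg h4.2.1.1, dif_neg h4.2.2.1.1, dif_neg e1,
      dif_neg h4.1.2.2.2.1, dif_neg h4.2.2.2.1.1] at h5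
    exact h5

def d7 : Fin 5 → Fin 5 → Fin 7 :=
  ![![0,0,1,2,3],![0,0,4,5,6],![1,4,0,6,5],![2,5,6,0,4],![3,6,5,4,0]]

def tb (a b c d e f : Fin 6) : Fin 5 → Fin 5 → Fin 6 :=
  ![![0,0,1,2,3],![0,0,a,b,c],![1,a,0,d,e],![2,b,d,0,f],![3,c,e,f,0]]

set_option synthInstance.maxSize 2000 in
theorem key : ∀ a : Fin 6, a ≠ 0 ∧ a ≠ 1 → ∀ b : Fin 6, b ≠ 0 ∧ b ≠ 2 ∧ b ≠ a →
    ∀ c : Fin 6, c ≠ 0 ∧ c ≠ 3 ∧ c ≠ a ∧ c ≠ b → ∀ d : Fin 6, d ≠ 1 ∧ d ≠ 2 ∧ d ≠ a ∧ d ≠ b →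
    ∀ e : Fin 6, e ≠ 1 ∧ e ≠ 3 ∧ e ≠ a ∧ e ≠ c ∧ e ≠ d →
    ∀ f : Fin 6, f ≠ 2 ∧ f ≠ 3 ∧ f ≠ b ∧ f ≠ c ∧ f ≠ d ∧ f ≠ e →
    (∀ t, ∃ i j, tb a b c d e f i j = t) →
    ∃ p q r s t : Fin 5, [p, q, r, s, t].Nodup ∧ (six (tb a b c d e f) p q r s t).Nodup := by
  decide +kernel

theorem not6 : 6 ∉ K T house := by
  rintro ⟨-, c, hs, hp, hr⟩
  have hd : ∀ i j l, i ≠ j → i ≠ l → j ≠ l → dd c i j ≠ dd c i l := by
    intro i j l h1 h2 h3
    simp only [dd, dif_neg h1, dif_neg h2]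
    refine hp _ _ (fun h => ?_) ⟨i, by simp, by simp⟩
    have := congrArg Subtype.val h
    simp only [Sym2.congr_right] at this
    exact h3 this
  have hsym : ∀ i j, dd c i j = dd c j i := by
    intro i j
    by_cases h : i = j
    · rw [h]
    · simp only [dd, dif_neg h, dif_neg (Ne.symm h)]
      congr 1; exact Subtype.ext Sym2.eq_swap
  have hi : Function.Injective (fun i : Fin 4 => dd c 0 i.succ) := by
    intro i j h
    by_contra hne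
    exact hd 0 i.succ j.succ (Fin.succ_ne_zero i).symm (Fin.succ_ne_zero j).symm
      (fun h => hne (Fin.succ_injective _ h)) h
  have hg : Function.Injective (fun i : Fin 4 => (⟨i.1, by omega⟩ : Fin 6)) := by decide
  obtain ⟨σ, hσ⟩ := Equiv.Perm.exists_extending_pair _ _ hi hg
  let D : Fin 5 → Fin 5 → Fin 6 := fun i j => σ (dd c i j)
  have hD : ∀ i j l, i ≠ j → i ≠ l → j ≠ l → D i j ≠ D i l :=
    fun i j l h1 h2 h3 h => hd i j l h1 h2 h3 (σ.injective h)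
  have hS : ∀ i j, D i j = D j i := fun i j => congrArg σ (hsym i j)
  have e1 : D 0 1 = 0 := hσ 0
  have e2 : D 0 2 = 1 := hσ 1
  have e3 : D 0 3 = 2 := hσ 2
  have e4 : D 0 4 = 3 := hσ 3
  have e0 : ∀ i, D i i = 0 := fun i => by
    rw [← e1]; simp only [D, dd, dif_pos]; rfl
  have hD' : ∀ i j l, i ≠ j → i ≠ l → j ≠ l → D j i ≠ D i l :=
    fun i j l h1 h2 h3 => hS i j ▸ hD i j l h1 h2 h3
  have hD'' : ∀ i j l, i ≠ j → i ≠ l → j ≠ l → D j i ≠ D l i :=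
    fun i j l h1 h2 h3 => hS i l ▸ hD' i j l h1 h2 h3
  have hT : D = tb (D 1 2) (D 1 3) (D 1 4) (D 2 3) (D 2 4) (D 3 4) := by
    funext i j
    fin_cases i <;> fin_cases j <;>
      first | exact e0 _ | rfl | exact hS _ _ | assumption | exact (hS _ _).trans (by assumption)
  have A : ∀ i j l, i ≠ j ∧ i ≠ l ∧ j ≠ l → D i j ≠ D i l ∧ D j i ≠ D i l ∧ D i j ≠ D l i ∧
      D j i ≠ D l i := fun i j l ⟨h1, h2, h3⟩ =>
    ⟨hD i j l h1 h2 h3, hD' i j l h1 h2 h3, (hD' i l j h2 h1 h3.symm).symm, hD'' i j l h1 h2 h3⟩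
  obtain ⟨p, q, r, s, t, h1, h2⟩ := key (D 1 2)
    ⟨e1 ▸ (A 1 2 0 (by decide)).2.2.1, e2 ▸ (A 2 1 0 (by decide)).2.2.2⟩ (D 1 3)
    ⟨e1 ▸ (A 1 3 0 (by decide)).2.2.1, e3 ▸ (A 3 1 0 (by decide)).2.2.2, (A 1 3 2 (by decide)).1⟩
    (D 1 4) ⟨e1 ▸ (A 1 4 0 (by decide)).2.2.1, e4 ▸ (A 4 1 0 (by decide)).2.2.2,
      (A 1 4 2 (by decide)).1, (A 1 4 3 (by decide)).1⟩
    (D 2 3) ⟨e2 ▸ (A 2 3 0 (by decide)).2.2.1, e3 ▸ (A 3 2 0 (by decide)).2.2.2,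
      (A 2 3 1 (by decide)).2.2.1, (A 3 2 1 (by decide)).2.2.2⟩
    (D 2 4) ⟨e2 ▸ (A 2 4 0 (by decide)).2.2.1, e4 ▸ (A 4 2 0 (by decide)).2.2.2,
      (A 2 4 1 (by decide)).2.2.1, (A 4 2 1 (by decide)).2.2.2, (A 2 4 3 (by decide)).1⟩
    (D 3 4) ⟨e3 ▸ (A 3 4 0 (by decide)).2.2.1, e4 ▸ (A 4 3 0 (by decide)).2.2.2,
      (A 3 4 1 (by decide)).2.2.1, (A 4 3 1 (by decide)).2.2.2, (A 3 4 2 (by decide)).2.2.1,
      (A 4 3 2 (by decide)).2.2.2⟩
    (by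
      intro t
      rw [← hT]
      obtain ⟨⟨e, he⟩, h⟩ := hs (σ.symm t)
      induction e using Sym2.ind with
      | h i j =>
        have hij : ¬ i = j := he
        exact ⟨i, j, by simp only [D, dd, dif_neg hij, h]; simp⟩)
  rw [← hT] at h2
  exact hr ((rb_iff c).2 ⟨p, q, r, s, t, h1, List.Nodup.of_map σ h2⟩)

theorem result :
    (5 ∈ K (⊤ : SimpleGraph (Fin 5)) house ∧ 6 ∉ K (⊤ : SimpleGraph (Fin 5)) house ∧
      7 ∈ K (⊤ : SimpleGraph (Fin 5)) house) ∧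
    ¬ ∀ (n m : ℕ) (G : SimpleGraph (Fin n)) (H : SimpleGraph (Fin m)), IsInterval (K G H) := by
  have h5 : 5 ∈ K T house := mk_mem (by decide) (fun i j => i + j) add_comm (by decide) (by decide)
    (by decide +kernel)
  have h7 : 7 ∈ K T house := mk_mem (by decide) d7 (by decide) (by decide) (by decide)
    (by decide +kernel)
  exact ⟨⟨h5, not6, h7⟩, fun h => not6 (h 5 5 _ _ 5 6 7 (by decide) (by decide) h5 h7)⟩

end Pool.Agent.Results.MP_bfacb1_co.House
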